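import Pool.Agent.Q295.PGI.Plane
import Pool.Agent.Q333.Dec

/-!
# A finest matroid subdivision of a hypersimplex with a decomposable maximal cell
-/

set_option autoImplicit false
set_option linter.unusedSectionVars false

namespace Pool.Agent.Results.MP_6a4d09_co.DecomposableCell

open Finset Module Pool.Agent.Q295.PGI
open scoped LinearAlgebra.Projectivization

/-- For a projective plane over a field with three elements: some finest matroid subdivision of the
polytope of the uniform matroid of rank three on its points has a decomposable maximal cell. -/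
theorem main (F V : Type) [Field F] [Finite F] [AddCommGroup V] [Module F V]
    [FiniteDimensional F V] [DecidableEq (ℙ F V)] [Fintype (ℙ F V)] (h3 : finrank F V = 3)
    (hF : Nat.card F = 3) (U : Matroid (ℙ F V)) (hUE : U.E = Set.univ)
    (hU : ∀ B : Finset (ℙ F V), U.IsBase (B : Set (ℙ F V)) ↔ B.card = 3) :
    ∃ C, IsFinest U C ∧ ∃ N ∈ C, (∀ N' ∈ C, polytope N ⊆ polytope N' → N' = N) ∧
      ¬ Indecomposable N := by
  classical
  have h4 : ∀ L ∈ lns F V, L.card = 4 := fun L hL => card_line hF L hL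
  have hex : ∀ L : Finset (ℙ F V), ∃ N : Matroid (ℙ F V), L ∈ lns F V → N.E = Set.univ ∧
      ∀ B : Finset (ℙ F V), N.IsBase (B : Set (ℙ F V)) ↔ B.card = 3 ∧ 2 ≤ (B ∩ L).card := by
    intro L
    by_cases hL : L ∈ lns F V
    · obtain ⟨N, hN⟩ := exists_NL L (by have := h4 L hL; omega)
      exact ⟨N, fun _ => hN⟩
    · exact ⟨U, fun h => absurd h hL⟩
  choose NL hNL using hex
  have hNE : ∀ L ∈ lns F V, (NL L).E = Set.univ := fun L hL => (hNL L hL).1
  have hNB : ∀ L ∈ lns F V, ∀ B : Finset (ℙ F V), (NL L).IsBase (B : Set (ℙ F V)) ↔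
      B.card = 3 ∧ 2 ≤ (B ∩ L).card := fun L hL => (hNL L hL).2
  have hint : ∀ L ∈ lns F V, ∀ L' ∈ lns F V, 2 ≤ (L ∩ L').card → L = L' :=
    fun L hL L' hL' h => plane_int L hL L' hL' h
  have hME : (PG F V).E = Set.univ := rfl
  have hMB : ∀ B : Finset (ℙ F V), (PG F V).IsBase (B : Set (ℙ F V)) ↔
      B.card = 3 ∧ ∀ L ∈ lns F V, ¬ B ⊆ L := fun B => plane_base h3 B
  have h0 := sigma0 (lns F V) U (PG F V) NL hUE hU hME hMB hNE hNB hint
  obtain ⟨C, hC, href⟩ := exists_finest h0
  obtain ⟨x0, hx0, hx0L⟩ := plane_point (F := F) (V := V) h3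
  have hres := restrict (lns F V) U (PG F V) NL hUE hU hME hMB hNE hNB hint hC.1 href x0 hx0 hx0L
  have hM := (Results.MP_da28a5_co.Indecomposable.result F V (by omega) _ hres).1.1
  -- a line
  obtain ⟨W, hW⟩ : ∃ W : Submodule F V, finrank F W = 2 := by
    obtain ⟨f, hf⟩ := exists_linearIndependent_of_le_finrank (R := F) (M := V) (n := 2) (by omega)
    exact ⟨Submodule.span F (Set.range f), by rw [finrank_span_eq_card hf]; simp⟩
  have hL : pts W ∈ lns F V := ⟨W, hW, rfl⟩
  have hL4 := h4 _ hL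
  have hout : ∃ j, j ∉ pts W := by
    by_contra hcon
    push Not at hcon
    obtain ⟨B, hB⟩ := exists_base (PG F V)
    exact ((hMB B).1 hB).2 _ hL (fun e _ => hcon e)
  obtain ⟨N, hN, hmax, k1, k2, k3⟩ := neighbour (lns F V) U (PG F V) NL hUE hU hME hMB hNE hNB hint
    hC.1 hM href (pts W) hL (by omega) hout
  refine ⟨C, hC, N, hN, hmax, fun hind => ?_⟩
  have hL4' := hL4
  rw [Finset.card_eq_succ] at hL4'
  obtain ⟨l1, t, hl1, rt, ht⟩ := hL4'
  rw [Finset.card_eq_three] at ht
  obtain ⟨l2, l3, l4, h23, h24, h34, rfl⟩ := ht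
  simp only [Finset.mem_insert, Finset.mem_singleton, not_or] at hl1
  rw [← rt] at k1 k2 k3 hout
  obtain ⟨D, hD, hND⟩ := Pool.Agent.Q333.Dec.dec N l1 l2 l3 l4 hl1.1 hl1.2.1 hl1.2.2 h23 h24 h34
    ((hC.1.ground N hN).trans hUE) k1 k2 k3 hout
  exact hND (hind D hD)

/-- The hypersimplex of the uniform matroid of rank three on thirteen elements has a finest matroid
subdivision with a maximal cell whose matroid is not indecomposable. -/
theorem result : ∃ (E : Type) (_ : Fintype E) (_ : DecidableEq E) (U : Matroid E),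
    Fintype.card E = 13 ∧ U.E = Set.univ ∧
    (∀ B : Finset E, U.IsBase (B : Set E) ↔ B.card = 3) ∧
    ∃ C, IsFinest U C ∧ ∃ N ∈ C, (∀ N' ∈ C, polytope N ⊆ polytope N' → N' = N) ∧
      ¬ Indecomposable N := by
  classical
  have : Fact (Nat.Prime 3) := ⟨by norm_num⟩
  have hfin : Finite (ℙ (ZMod 3) (Fin 3 → ZMod 3)) := finite_pts _ _
  let _ : Fintype (ℙ (ZMod 3) (Fin 3 → ZMod 3)) := Fintype.ofFinite _
  have hr : finrank (ZMod 3) (Fin 3 → ZMod 3) = 3 := by simp
  have hF : Nat.card (ZMod 3) = 3 := by simp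
  have hcard : Fintype.card (ℙ (ZMod 3) (Fin 3 → ZMod 3)) = 13 := by
    rw [← Nat.card_eq_fintype_card, Projectivization.card_of_finrank (ZMod 3) _ hr]
    simp [Finset.sum_range_succ]
  obtain ⟨U, hUE, hU⟩ := exists_uniform (E := ℙ (ZMod 3) (Fin 3 → ZMod 3)) 3 (by omega)
  exact ⟨ℙ (ZMod 3) (Fin 3 → ZMod 3), inferInstance, inferInstance, U, hcard, hUE, hU,
    main (ZMod 3) (Fin 3 → ZMod 3) hr hF U hUE hU⟩

end Pool.Agent.Results.MP_6a4d09_co.DecomposableCell
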